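import Pool.Agent.Helper98.HQ.Spec

/-!
Part CNT: counting functions in steps with an idle first server.
-/

set_option autoImplicit false

namespace Pool.Agent.Helper33.HQ.CNT

open Pool.Agent.Helper98.HQ

theorem card_eq_sum {k : ℕ} (p : Fin k → Prop) [DecidablePred p] :
    ((Finset.univ.filter p).card : ℝ) = ∑ i, if p i then (1 : ℝ) else 0 := by
  rw [Finset.card_filter]; push_cast; rfl

open Classical in
theorem eq_of_counts {k : ℕ} {x y : Fin k → ℝ} (hx : Adm x) (hy : Adm y)
    (h : ∀ u : ℝ, 0 ≤ u → (Finset.univ.filter fun i => u < x i).card =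
      (Finset.univ.filter fun i => u < y i).card) (i : Fin k) : y i ≤ x i := by
  by_contra hcon
  push Not at hcon
  have h1 := h (x i) (hx.2 i)
  have h2 : (Finset.univ.filter fun j => x i < x j) ⊆ Finset.Ioi i := by
    intro j hj
    rw [Finset.mem_filter] at hj
    rw [Finset.mem_Ioi]
    by_contra hle
    push Not at hle
    exact absurd (hx.1 hle) (not_le.2 hj.2)
  have h3 : Finset.Ici i ⊆ (Finset.univ.filter fun j => x i < y j) := by
    intro j hj
    rw [Finset.mem_Ici] at hj
    rw [Finset.mem_filter]
    exact ⟨Finset.mem_univ _, lt_of_lt_of_le hcon (hy.1 hj)⟩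
  have h4 : Finset.Ioi i ⊂ Finset.Ici i := by
    rw [Finset.ssubset_iff_of_subset (fun j hj => by
      rw [Finset.mem_Ioi] at hj; rw [Finset.mem_Ici]; exact hj.le)]
    exact ⟨i, by simp, by simp⟩
  have h5 := Finset.card_le_card h2
  have h6 := Finset.card_le_card h3
  have h7 := Finset.card_lt_card h4
  omega

open Classical in
theorem count_kw (hSRT : S_SRT) {k : ℕ} {x : Fin k → ℝ} {s t u : ℝ} (hk : 1 ≤ k) (hu : 0 ≤ u)
    (ht : 0 ≤ t) (hx0 : ∀ i : Fin k, (i : ℕ) = 0 → x i = 0) :
    ((Finset.univ.filter fun i => u < kw x s t i).card : ℝ) =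
      ((Finset.univ.filter fun i => u + t < x i).card : ℝ) + (if u + t < s then 1 else 0) := by
  obtain ⟨m, rfl⟩ : ∃ m, k = m + 1 := ⟨k - 1, by omega⟩
  set v : Fin (m + 1) → ℝ := fun i => max (x i + (if (i : ℕ) = 0 then s else 0) - t) 0 with hv
  have h1 := (hSRT (m + 1) v v).2.1 (fun z => if u < z then 1 else 0)
  have h2 : ((Finset.univ.filter fun i => u < kw x s t i).card : ℝ) =
      ∑ i, if u < v i then (1 : ℝ) else 0 := by
    rw [← h1, Finset.card_filter]
    push_cast
    rfl
  rw [h2, Finset.card_filter]
  push_cast
  rw [Fin.sum_univ_succ, Fin.sum_univ_succ (f := fun i => if u + t < x i then (1 : ℝ) else 0)]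
  have h3 : ∀ i : Fin m, (if u < v i.succ then (1 : ℝ) else 0) =
      if u + t < x i.succ then (1 : ℝ) else 0 := by
    intro i
    have : u < v i.succ ↔ u + t < x i.succ := by
      simp only [hv]
      rw [if_neg (by simp), lt_max_iff]
      constructor
      · rintro (h | h)
        · linarith
        · linarith
      · intro h
        left; linarith
    simp only [this]
  have h4 : (if u < v 0 then (1 : ℝ) else 0) = if u + t < s then (1 : ℝ) else 0 := by
    have : u < v 0 ↔ u + t < s := by
      simp only [hv]
      rw [if_pos (by simp), hx0 0 (by simp), lt_max_iff]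
      constructor
      · rintro (h | h)
        · linarith
        · linarith
      · intro h
        left; linarith
    simp only [this]
  have h5 : (if u + t < x 0 then (1 : ℝ) else 0) = 0 := by
    rw [hx0 0 (by simp), if_neg (by linarith)]
  rw [h4, h5, Finset.sum_congr rfl fun i _ => h3 i]
  ring

theorem main (hSRT : S_SRT) : S_CNT := by
  classical
  intro k x y hk hx hy
  refine ⟨fun h => ?_, fun s t c hs ht hc h0 h u hu => ?_⟩
  · funext i
    apply le_antisymm
    · apply eq_of_counts hy hx
      intro u hu
      convert (h u hu).symm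
    · apply eq_of_counts hx hy
      intro u hu
      convert h u hu
  · have hu0 : 0 ≤ u := (le_max_right _ _).trans hu
    have huc : c ≤ u + t := by
      have := (le_max_left (c - t) 0).trans hu
      linarith
    have h1 := count_kw hSRT (s := s) hk hu0 ht (fun i hi => (h0 i hi).1)
    have h2 := count_kw hSRT (s := s) hk hu0 ht (fun i hi => (h0 i hi).2)
    have h3 : ((Finset.univ.filter fun i => u + t < x i).card : ℝ) =
        ((Finset.univ.filter fun i => u + t < y i).card : ℝ) := by
      have := h (u + t) huc
      exact_mod_cast congrArg (fun n : ℕ => (n : ℝ)) (by convert this)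
    have h4 : ((Finset.univ.filter fun i => u < kw x s t i).card : ℝ) =
        ((Finset.univ.filter fun i => u < kw y s t i).card : ℝ) := by
      convert (h1.trans (by rw [h3])).trans h2.symm
    exact_mod_cast h4

end Pool.Agent.Helper33.HQ.CNT
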