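import Pool.Agent.Helper98.HQ.Spec

/-!
Part FORM: the values agree.
-/

set_option autoImplicit false

namespace Pool.Agent.Helper33.HQ.FORM

open Pool.Agent.Helper98.HQ

theorem main : S_FORM := by
  intro m A B E2 β hA hB hstab
  have hk0 : (0 : ℝ) < m + 1 := by positivity
  have hκ : 0 < (m + 1) * A - B := by linarith
  set ρ : ℝ := B / ((m + 1) * A) with hρ
  have hρ0 : 0 < ρ := by rw [hρ]; positivity
  have h1ρ : 1 - ρ = ((m + 1) * A - B) / ((m + 1) * A) := by
    rw [hρ]; field_simp
  have h1ρ0 : 0 < 1 - ρ := by rw [h1ρ]; positivity
  refine ⟨fun hm => ?_, fun hm => ?_⟩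
  · have hm0 : (0 : ℝ) < m := by exact_mod_cast hm
    have hmax : max (1 - (m + 1) * (1 - ρ)) 0 = max (B - m * A) 0 / A := by
      have h1 : 1 - (m + 1) * (1 - ρ) = (B - m * A) / A := by
        rw [hρ]; field_simp; ring
      rw [h1, ← max_div_div_right hA.le, zero_div]
    have hi : ∀ i, i < m → lval (m + 1) ρ A E2 β i = L1v m A B E2 β := by
      intro i hi
      unfold lval L1v
      rw [if_pos (by omega)]
      push_cast
      rw [hmax, h1ρ, hρ]
      field_simp
    refine ⟨hi, ?_⟩
    unfold lval L1v L2v
    rw [if_neg (by omega)]
    push_cast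
    by_cases hle : B ≤ m * A
    · rw [if_pos]
      · rw [max_eq_right (by linarith)]
        simp
      · rw [hρ, div_le_iff₀ (by positivity)]
        field_simp
        linarith
    · rw [if_neg]
      · push Not at hle
        rw [max_eq_left (by linarith), h1ρ, hρ]
        have h2 : A + (B - m * A) / m = B / m := by field_simp; ring
        rw [h2]
        push_cast
        generalize hκ' : ((m : ℝ) + 1) * A - B = κ at *
        have hm1 : (m : ℝ) + 1 - 1 = m := by ring
        rw [hm1]
        field_simp
        rw [← hκ']
        ring
      · rw [not_le, hρ, lt_div_iff₀ (by positivity)]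
        push Not at hle
        field_simp
        linarith
  · subst hm
    have hBA : 0 < A - B := by
      have := hκ; push_cast at this; linarith
    unfold lval
    rw [if_neg (by norm_num), if_neg]
    · push_cast
      have : 1 - B / A = (A - B) / A := by field_simp
      rw [this]
      field_simp
      ring
    · push_cast
      rw [not_le]
      have : 0 < B / A := by positivity
      linarith

end Pool.Agent.Helper33.HQ.FORM
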