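import Pool.Agent.Helper98.HQ.Spec

/-!
Part IDLE: with inputs `s ≤ s0`, `t0 ≤ t`, `s0 < k t0` the first server is idle from some step on.
-/

set_option autoImplicit false

namespace Pool.Agent.Helper33.HQ.IDLE

open Pool.Agent.Helper98.HQ

/-- The staircase. -/
noncomputable def EE (m : ℕ) (s0 t' : ℝ) (i : Fin (m + 1)) : ℝ :=
  max (s0 - (((m : ℝ) + 1) - (i : ℕ)) * t') 0

theorem EE_mono (m : ℕ) (s0 t' : ℝ) (ht' : 0 < t') : Monotone (EE m s0 t') := by
  intro i j hij
  unfold EE
  apply max_le_max _ le_rfl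
  have : ((i : ℕ) : ℝ) ≤ (j : ℕ) := by exact_mod_cast hij
  nlinarith

/-- One step. -/
theorem step (hSRT : S_SRT) {m : ℕ} {s0 t0 t' d c s t : ℝ} (ht' : 0 < t') (hd : t0 = t' + d)
    (hk : s0 ≤ ((m : ℝ) + 1) * t') (hs0 : 0 ≤ s0) {w : Fin (m + 1) → ℝ}
    (hw : ∀ i, w i ≤ EE m s0 t' i + c) (hs : s ≤ s0) (ht : t0 ≤ t) :
    ∀ i, kw w s t i ≤ EE m s0 t' i + max (c - d) 0 := by
  set v : Fin (m + 1) → ℝ := fun i => max (w i + (if (i : ℕ) = 0 then s else 0) - t) 0 with hv
  set b : Fin (m + 1) → ℝ := fun i => EE m s0 t' i + max (c - d) 0 with hb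
  have hbm : Monotone b := by
    intro i j hij
    simp only [hb]
    have := EE_mono m s0 t' ht' hij
    linarith
  have hle : ∀ i, v (finRotate (m + 1) i) ≤ b i := by
    intro i
    have hb0 : 0 ≤ b i := by
      simp only [hb]
      have : 0 ≤ EE m s0 t' i := le_max_right _ _
      have : 0 ≤ max (c - d) 0 := le_max_right _ _
      linarith
    have hcd : c - d ≤ max (c - d) 0 := le_max_left _ _
    apply max_le _ hb0
    by_cases hi : i = Fin.last m
    · subst hi
      rw [finRotate_last]
      have h1 := hw 0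
      have h0 : EE m s0 t' 0 = 0 := by
        unfold EE
        apply max_eq_right
        simp
        linarith
      rw [h0] at h1
      have h2 : s0 - t' ≤ EE m s0 t' (Fin.last m) := by
        unfold EE
        refine le_trans (le_of_eq ?_) (le_max_left _ _)
        rw [Fin.val_last]; ring
      simp only [hb]
      rw [if_pos (by simp)]
      linarith
    · have hi' : (i : ℕ) < m := by
        have h1 := i.2
        have h2 : (i : ℕ) ≠ m := fun h => hi (Fin.ext (by simpa using h))
        omega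
      have hrot : finRotate (m + 1) i = ⟨(i : ℕ) + 1, by omega⟩ := by
        have := finRotate_of_lt (n := m) hi'
        exact this
      rw [hrot]
      have h1 := hw ⟨(i : ℕ) + 1, by omega⟩
      rw [if_neg (by simp)]
      have h2 : EE m s0 t' ⟨(i : ℕ) + 1, by omega⟩ - t' ≤ EE m s0 t' i := by
        unfold EE
        push_cast
        have h3 : s0 - ((m : ℝ) + 1 - ((i : ℕ) : ℝ)) * t' ≤
            max (s0 - ((m : ℝ) + 1 - ((i : ℕ) : ℝ)) * t') 0 := le_max_left _ _
        have h4 : 0 ≤ max (s0 - ((m : ℝ) + 1 - ((i : ℕ) : ℝ)) * t') 0 := le_max_right _ _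
        have h5 : max (s0 - ((m : ℝ) + 1 - (((i : ℕ) : ℝ) + 1)) * t') 0 ≤
            max (s0 - ((m : ℝ) + 1 - ((i : ℕ) : ℝ)) * t') 0 + t' := by
          apply max_le
          · linarith
          · linarith
        linarith
      simp only [hb]
      linarith
  obtain ⟨-, -, hmono, -, hperm, -⟩ := hSRT (m + 1) v v
  obtain ⟨-, -, -, hsrtb, -, -⟩ := hSRT (m + 1) b b
  have h1 := (hSRT (m + 1) (v ∘ finRotate (m + 1)) b).2.2.1 hle
  rw [hperm, hsrtb hbm] at h1
  exact h1

theorem main (hSRT : S_SRT) (hKWB : S_KWB) : S_IDLE := by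
  intro k s0 t0 R hk hs0 ht0 hst hR
  obtain ⟨m, rfl⟩ : ∃ m, k = m + 1 := ⟨k - 1, by omega⟩
  have hm : (0 : ℝ) < (m : ℝ) + 1 := by positivity
  push_cast at hst
  set d : ℝ := (t0 - s0 / (m + 1)) / 2 with hd
  have hd0 : 0 < d := by
    have : s0 / (m + 1) < t0 := by
      rw [div_lt_iff₀ hm]; linarith
    rw [hd]; linarith
  set t' : ℝ := t0 - d with ht'
  have ht'0 : 0 < t' := by
    have : 0 ≤ s0 / (m + 1) := by positivity
    rw [ht', hd]; linarith
  have hkt : s0 ≤ ((m : ℝ) + 1) * t' := by
    have h1 : ((m : ℝ) + 1) * t' = (((m : ℝ) + 1) * t0 + s0) / 2 := by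
      rw [ht', hd]; field_simp; ring
    rw [h1]; linarith
  obtain ⟨n, hn⟩ := exists_nat_ge (R / d)
  have hnd : R ≤ n * d := by
    rw [div_le_iff₀ hd0] at hn; exact hn
  refine ⟨n, fun ω hω x hx hxR => ?_⟩
  -- the bound at every step
  have hbound : ∀ j : ℕ, ∀ i, pth (fun _ => 1) x ω j i ≤ EE m s0 t' i + max (R - j * d) 0 := by
    intro j
    induction j with
    | zero =>
      intro i
      have h1 : 0 ≤ EE m s0 t' i := le_max_right _ _
      have h2 : R ≤ max (R - (0 : ℕ) * d) 0 := by
        refine le_trans (le_of_eq ?_) (le_max_left _ _)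
        push_cast; ring
      have := hxR i
      change x i ≤ _
      linarith
    | succ j ih =>
      intro i
      change stp 1 (pth (fun _ => 1) x ω j) (ω j) i ≤ _
      unfold stp
      obtain ⟨h1, h2, h3⟩ := hω j
      rw [max_eq_left h1, max_eq_left (ht0.le.trans h3), one_mul]
      have h4 := step hSRT (d := d) ht'0 (by rw [ht']; ring) hkt hs0 ih h2 h3 i
      refine h4.trans ?_
      have h5 : max (max (R - j * d) 0 - d) 0 ≤ max (R - ((j + 1 : ℕ) : ℝ) * d) 0 := by
        apply max_le _ (le_max_right _ _)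
        rcases le_total (R - j * d) 0 with h | h
        · rw [max_eq_right h]
          refine le_trans ?_ (le_max_right _ _)
          linarith
        · rw [max_eq_left h]
          refine le_trans (le_of_eq ?_) (le_max_left _ _)
          push_cast; ring
      linarith
  have hadm : ∀ j : ℕ, ∀ i, 0 ≤ pth (fun _ => 1) x ω j i := by
    intro j i
    cases j with
    | zero => exact hx.2 i
    | succ j =>
      exact ((hKWB (m + 1) (pth (fun _ => 1) x ω j) (pth (fun _ => 1) x ω j)
        ((fun _ => (1 : ℝ)) j * max (ω j).2 0) 0 (max (ω j).1 0)).1).2 i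
  intro j hj
  have hzero : max (R - j * d) 0 = 0 := by
    apply max_eq_right
    have : (n : ℝ) ≤ j := by exact_mod_cast hj
    nlinarith
  refine ⟨fun i hi => ?_, fun i => ?_⟩
  · apply le_antisymm _ (hadm j i)
    have h1 := hbound j i
    rw [hzero, add_zero] at h1
    have h0 : EE m s0 t' i = 0 := by
      unfold EE
      rw [hi]
      apply max_eq_right
      push_cast
      linarith
    linarith
  · have h1 := hbound j i
    rw [hzero, add_zero] at h1
    refine h1.trans ?_
    unfold EE
    apply max_le _ hs0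
    have h2 : ((i : ℕ) : ℝ) ≤ m := by
      have := i.2
      exact_mod_cast (by omega : (i : ℕ) ≤ m)
    nlinarith

end Pool.Agent.Helper33.HQ.IDLE
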