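import Pool.Agent.Helper98.HQ.Spec

/-!
Parts LIMS0 and LIMS: lower bounds are limits.
-/

set_option autoImplicit false

open MeasureTheory Filter Topology

namespace Pool.Agent.Helper33.HQ.LIMS

open Pool.Agent.Helper98.HQ

theorem pp_facts {β e : ℝ} (he : 0 < e) :
    0 ≤ pp e ∧ pp e ≤ 1 ∧ (1 - pp e) * (1 - β * e) + pp e * (1 + β / e) = 1 ∧
      (1 - pp e) * (1 - β * e) ^ 2 + pp e * (1 + β / e) ^ 2 = 1 + β ^ 2 := by
  unfold pp
  have h1 : (0 : ℝ) < 1 + e ^ 2 := by positivity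
  refine ⟨by positivity, ?_, ?_, ?_⟩
  · rw [div_le_one h1]; linarith
  · field_simp; ring
  · field_simp; ring

/-- The identity for the differences of the means. -/
theorem ident (hID : S_ID) (m : ℕ) (ν : Measure (ℝ × ℝ)) (β : ℝ) (e : ℕ → ℝ)
    (πe : ℕ → Measure (Fin (m + 1) → ℝ)) (π : Measure (Fin (m + 1) → ℝ))
    (hF : Fam m ν β e πe π) (j : ℕ) :
    2 * ((∫ u, u.1 ∂ν) * ∑ i, (∫ w, w i ∂(πe j) - ∫ w, w i ∂π) -
      (∫ u, u.2 ∂ν) * (∫ w, w 0 ∂(πe j) - ∫ w, w 0 ∂π)) =
      β ^ 2 * (∫ u, u.2 ^ 2 ∂ν) - (((1 - pp (e j)) * Psi ν (1 - β * e j) (πe j) +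
        pp (e j) * Psi ν (1 + β / e j) (πe j)) - Psi ν 1 π) := by
  obtain ⟨h1, h2, h3, h4⟩ := pp_facts (β := β) (hF.e0 j).1
  have hb0 : 0 ≤ 1 + β / e j := by
    have := div_pos hF.β0 (hF.e0 j).1
    linarith
  have e1 := hID m ν (pp (e j)) (1 - β * e j) (1 + β / e j) (πe j) hF.inp h1 h2
    (by linarith [(hF.e0 j).2]) hb0 h3 (hF.st j)
  have e2 := hID m ν 0 1 1 π hF.inp le_rfl zero_le_one zero_le_one zero_le_one (by norm_num) hF.st0
  rw [h4] at e1
  rw [Finset.sum_sub_distrib]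
  generalize ∑ i, ∫ w, w i ∂(πe j) = X at *
  generalize ∑ i, ∫ w, w i ∂π = Y at *
  generalize ∫ w, w 0 ∂(πe j) = x at *
  generalize ∫ w, w 0 ∂π = y at *
  linarith

/-- Lower bounds are limits if the sum converges to the sum of the bounds. -/
theorem sqz {ι : Type*} [DecidableEq ι] (s : Finset ι) (f : ι → ℕ → ℝ) (l : ι → ℝ)
    (h1 : ∀ i ∈ s, ∀ δ : ℝ, 0 < δ → ∀ᶠ j in atTop, l i - δ ≤ f i j)
    (h2 : Tendsto (fun j => ∑ i ∈ s, f i j) atTop (𝓝 (∑ i ∈ s, l i))) :
    ∀ i ∈ s, Tendsto (f i) atTop (𝓝 (l i)) := by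
  intro i hi
  rw [Metric.tendsto_atTop']
  intro ε hε
  have hs : (0 : ℝ) < s.card + 1 := by positivity
  set δ : ℝ := ε / (s.card + 1) with hδ
  have hδ0 : 0 < δ := by rw [hδ]; positivity
  have hall : ∀ᶠ j in atTop, ∀ i' ∈ s, l i' - δ ≤ f i' j :=
    (Filter.eventually_all_finset s).2 fun i' hi' => h1 i' hi' δ hδ0
  have hsum := (Metric.tendsto_atTop'.1 h2 δ hδ0)
  obtain ⟨N, hN⟩ := hsum
  obtain ⟨N', hN'⟩ := eventually_atTop.1 hall
  refine ⟨max N N', fun j hj => ?_⟩
  have a1 := hN j (lt_of_le_of_lt (le_max_left _ _) hj)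
  have a2 := hN' j ((le_max_right _ _).trans hj.le)
  rw [Real.dist_eq, abs_lt] at a1 ⊢
  have a3 : ∑ i' ∈ s.erase i, (l i' - δ) ≤ ∑ i' ∈ s.erase i, f i' j :=
    Finset.sum_le_sum fun i' hi' => a2 i' (Finset.mem_of_mem_erase hi')
  rw [Finset.sum_sub_distrib, Finset.sum_const, nsmul_eq_mul] at a3
  have a4 := Finset.add_sum_erase s (fun i => f i j) hi
  have a5 := Finset.add_sum_erase s l hi
  have a6 : (((s.erase i).card : ℕ) : ℝ) ≤ s.card := by
    exact_mod_cast Finset.card_le_card (Finset.erase_subset i s)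
  have a7 : (((s.erase i).card : ℕ) : ℝ) * δ ≤ s.card * δ :=
    mul_le_mul_of_nonneg_right a6 hδ0.le
  have a8 : (s.card : ℝ) * δ + δ = ε := by
    rw [hδ]; field_simp
  have a9 := a2 i hi
  have a10 : 0 ≤ (s.card : ℝ) * δ := by positivity
  constructor
  · have : δ ≤ ε := by linarith
    by_contra hcon
    push Not at hcon
    have a11 : f i j = l i - δ := by linarith
    have a12 : (s.card : ℝ) * δ = 0 := by linarith
    have a13 : (0 : ℝ) < s.card := by
      exact_mod_cast Finset.card_pos.2 ⟨i, hi⟩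
    have a14 : 0 < (s.card : ℝ) * δ := by positivity
    linarith
  · linarith

/-- Part LIMS0. -/
theorem lims0 (hID : S_ID) (hPSI : S_PSI) : S_LIMS0 := by
  intro ν β e πe π hF
  have hstab := hF.inp.stab
  have hpos : 0 < (∫ u, u.1 ∂ν) - ∫ u, u.2 ∂ν := by
    push_cast at hstab; linarith
  have h1 := hPSI 0 ν β e πe π hF
  have h2 : ∀ j, ∫ w, w 0 ∂(πe j) - ∫ w, w 0 ∂π = (β ^ 2 * (∫ u, u.2 ^ 2 ∂ν) -
      (((1 - pp (e j)) * Psi ν (1 - β * e j) (πe j) +
        pp (e j) * Psi ν (1 + β / e j) (πe j)) - Psi ν 1 π)) /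
        (2 * ((∫ u, u.1 ∂ν) - ∫ u, u.2 ∂ν)) := by
    intro j
    have h3 := ident hID 0 ν β e πe π hF j
    rw [Fin.sum_univ_one] at h3
    rw [eq_div_iff (by positivity), ← h3]
    ring
  have h4 : Tendsto (fun j => (β ^ 2 * (∫ u, u.2 ^ 2 ∂ν) -
      (((1 - pp (e j)) * Psi ν (1 - β * e j) (πe j) +
        pp (e j) * Psi ν (1 + β / e j) (πe j)) - Psi ν 1 π)) /
        (2 * ((∫ u, u.1 ∂ν) - ∫ u, u.2 ∂ν))) atTop
      (𝓝 ((β ^ 2 * (∫ u, u.2 ^ 2 ∂ν) - (Psi ν 1 π - Psi ν 1 π)) /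
        (2 * ((∫ u, u.1 ∂ν) - ∫ u, u.2 ∂ν)))) :=
    (tendsto_const_nhds.sub (h1.sub tendsto_const_nhds)).div_const _
  rw [sub_self, sub_zero] at h4
  refine h4.congr fun j => (h2 j).symm

/-- Part LIMS. -/
theorem lims (hID : S_ID) (hPSI : S_PSI) (hMEANB : S_MEANB) (hLBS : S_LBS) : S_LIMS := by
  intro m ν β e πe π hm hF
  classical
  set A := ∫ u, u.1 ∂ν with hA
  set B := ∫ u, u.2 ∂ν with hB
  set E2 := ∫ u, u.2 ^ 2 ∂ν with hE2
  have hA0 : 0 < A := hF.inp.Tpos
  have hB0 : 0 < B := hF.inp.Spos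
  have hstab : B < (m + 1) * A := by
    have := hF.inp.stab; push_cast at this; exact this
  have hκ : 0 < (m + 1) * A - B := by linarith
  have hm0 : (0 : ℝ) < m := by exact_mod_cast hm
  set l1 := L1v m A B E2 β with hl1
  set l2 := L2v m A B E2 β with hl2
  set x : Fin (m + 1) → ℕ → ℝ := fun i j => ∫ w, w i ∂(πe j) - ∫ w, w i ∂π with hx
  -- the values
  have hval : ((m + 1) * A - B) * l1 + A * l2 = β ^ 2 * E2 / 2 := by
    rw [hl1, hl2]
    unfold L1v L2v
    rcases le_total B (m * A) with h | h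
    · rw [max_eq_right (by linarith)]
      field_simp
      ring
    · rw [max_eq_left (by linarith)]
      have h2 : A + (B - m * A) / m = B / m := by field_simp; ring
      rw [h2]
      field_simp
      ring
  -- integrability
  have hint : ∀ j, ∀ i, Integrable (fun w : Fin (m + 1) → ℝ => w i) (πe j) := by
    intro j
    obtain ⟨h1, h2, h3, h4⟩ := pp_facts (β := β) (hF.e0 j).1
    have hb0 : 0 ≤ 1 + β / e j := by
      have := div_pos hF.β0 (hF.e0 j).1
      linarith
    exact (hMEANB m ν (pp (e j)) (1 - β * e j) (1 + β / e j) (πe j) hF.inp h1 h2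
      (by linarith [(hF.e0 j).2]) hb0 h3 (hF.st j)).1
  have hint0 : ∀ i, Integrable (fun w : Fin (m + 1) → ℝ => w i) π :=
    (hMEANB m ν 0 1 1 π hF.inp le_rfl zero_le_one zero_le_one zero_le_one (by norm_num)
      hF.st0).1
  -- the lower bounds
  have hlb := hLBS m ν β e πe π hm hF
  have hb1 : ∀ δ : ℝ, 0 < δ → ∀ᶠ j in atTop, l1 - δ ≤ x 0 j := by
    intro δ hδ
    filter_upwards [(hlb δ hδ).1] with j hj
    simp only [hx]
    linarith
  have hb2 : ∀ i : Fin (m + 1), ∀ δ : ℝ, 0 < δ → ∀ᶠ j in atTop, 0 - δ ≤ x i j - x 0 j := by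
    intro i δ hδ
    filter_upwards [(hlb δ hδ).2.1 i] with j hj
    rw [integral_sub (hint0 i) (hint0 0), integral_sub (hint j i) (hint j 0)] at hj
    simp only [hx]
    linarith
  have hb3 : ∀ δ : ℝ, 0 < δ → ∀ᶠ j in atTop, l2 - δ ≤ x (Fin.last m) j - x 0 j := by
    intro δ hδ
    filter_upwards [(hlb δ hδ).2.2] with j hj
    rw [integral_sub (hint0 _) (hint0 0), integral_sub (hint j _) (hint j 0)] at hj
    simp only [hx]
    linarith
  -- the sum
  have hlast : (Fin.last m : Fin (m + 1)) ≠ 0 := by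
    intro h
    have := congrArg Fin.val h
    simp at this
    omega
  let f : Fin (m + 1) → ℕ → ℝ := fun i j =>
    (if i = 0 then ((m + 1) * A - B) * x 0 j else 0) + A * (x i j - x 0 j)
  let l : Fin (m + 1) → ℝ := fun i =>
    (if i = 0 then ((m + 1) * A - B) * l1 else 0) + (if i = Fin.last m then A * l2 else 0)
  have hsuml : ∑ i, l i = β ^ 2 * E2 / 2 := by
    simp only [l]
    rw [Finset.sum_add_distrib, Finset.sum_ite_eq', Finset.sum_ite_eq', if_pos (Finset.mem_univ _),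
      if_pos (Finset.mem_univ _), hval]
  have hsumf : ∀ j, ∑ i, f i j = (β ^ 2 * E2 -
      (((1 - pp (e j)) * Psi ν (1 - β * e j) (πe j) +
        pp (e j) * Psi ν (1 + β / e j) (πe j)) - Psi ν 1 π)) / 2 := by
    intro j
    have h3 := ident hID m ν β e πe π hF j
    simp only [f]
    rw [Finset.sum_add_distrib, Finset.sum_ite_eq', if_pos (Finset.mem_univ _), ← Finset.mul_sum,
      Finset.sum_sub_distrib, Finset.sum_const, Finset.card_univ, Fintype.card_fin, nsmul_eq_mul]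
    rw [eq_div_iff (by norm_num), hE2, ← h3]
    simp only [hx]
    push_cast
    ring
  have hsum : Tendsto (fun j => ∑ i, f i j) atTop (𝓝 (∑ i, l i)) := by
    have h1 := hPSI m ν β e πe π hF
    have h4 : Tendsto (fun j => (β ^ 2 * E2 -
        (((1 - pp (e j)) * Psi ν (1 - β * e j) (πe j) +
          pp (e j) * Psi ν (1 + β / e j) (πe j)) - Psi ν 1 π)) / 2) atTop
        (𝓝 ((β ^ 2 * E2 - (Psi ν 1 π - Psi ν 1 π)) / 2)) :=
      (tendsto_const_nhds.sub (h1.sub tendsto_const_nhds)).div_const _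
    rw [sub_self, sub_zero] at h4
    rw [hsuml]
    exact h4.congr fun j => (hsumf j).symm
  have hfl : ∀ i ∈ (Finset.univ : Finset (Fin (m + 1))), ∀ δ : ℝ, 0 < δ →
      ∀ᶠ j in atTop, l i - δ ≤ f i j := by
    intro i _ δ hδ
    by_cases hi0 : i = 0
    · subst hi0
      filter_upwards [hb1 (δ / ((m + 1) * A - B)) (by positivity)] with j hj
      simp only [f, l, if_true]
      rw [if_neg (Ne.symm hlast), sub_self, mul_zero, add_zero, add_zero]
      have := mul_le_mul_of_nonneg_left hj hκ.le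
      have h5 : ((m + 1) * A - B) * (l1 - δ / ((m + 1) * A - B)) =
          ((m + 1) * A - B) * l1 - δ := by field_simp
      linarith
    · by_cases hil : i = Fin.last m
      · subst hil
        filter_upwards [hb3 (δ / A) (by positivity)] with j hj
        simp only [f, l, if_true]
        rw [if_neg hlast, if_neg hlast, zero_add, zero_add]
        have := mul_le_mul_of_nonneg_left hj hA0.le
        have h5 : A * (l2 - δ / A) = A * l2 - δ := by field_simp
        linarith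
      · filter_upwards [hb2 i (δ / A) (by positivity)] with j hj
        simp only [f, l]
        rw [if_neg hi0, if_neg hil, if_neg hi0, zero_add, zero_add]
        have := mul_le_mul_of_nonneg_left hj hA0.le
        have h5 : A * (0 - δ / A) = 0 - δ := by field_simp; ring
        linarith
  have hlim := sqz Finset.univ f l hfl hsum
  have hx0 : Tendsto (x 0) atTop (𝓝 l1) := by
    have h1 := (hlim 0 (Finset.mem_univ _)).div_const ((m + 1) * A - B)
    simp only [f, l, if_true] at h1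
    rw [if_neg (Ne.symm hlast), add_zero, mul_div_cancel_left₀ _ hκ.ne'] at h1
    refine h1.congr fun j => ?_
    rw [sub_self, mul_zero, add_zero, mul_div_cancel_left₀ _ hκ.ne']
  refine ⟨fun i hi => ?_, ?_⟩
  · by_cases hi0 : i = 0
    · subst hi0; exact hx0
    · have h1 := (hlim i (Finset.mem_univ _)).div_const A
      simp only [f, l] at h1
      rw [if_neg hi0, if_neg hi, add_zero, zero_div] at h1
      have h2 := h1.add hx0
      rw [zero_add] at h2
      refine h2.congr fun j => ?_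
      rw [if_neg hi0, zero_add, mul_div_cancel_left₀ _ hA0.ne']
      ring
  · have h1 := (hlim (Fin.last m) (Finset.mem_univ _)).div_const A
    simp only [f, l, if_true] at h1
    rw [if_neg hlast, zero_add, mul_div_cancel_left₀ _ hA0.ne'] at h1
    have h2 := hx0.add h1
    refine h2.congr fun j => ?_
    rw [if_neg hlast, zero_add, mul_div_cancel_left₀ _ hA0.ne']
    ring

end Pool.Agent.Helper33.HQ.LIMS
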